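import Pool.Agent.Helper89.MS.Sheet

/-! # MS, package B4 -/

set_option autoImplicit false

open Finset

namespace Pool.Agent.Helper59.MSP

open _root_.MS

theorem B4 : B1Stm → B2Stm → B4Stm := by
  intro hB1 hB2 t m v F ht htm hv hG hne
  obtain ⟨hpos, hpair⟩ := hB1 t m v F ht htm hG
  have hB2' := hB2 t m v F ht htm hv hG
  -- two sets of `F` containing the top element meet in at least `t + 1` elements
  have key : ∀ S1 ∈ F, ∀ S2 ∈ F, m - 1 ∈ S1 → m - 1 ∈ S2 → t + 1 ≤ #(S1 ∩ S2) := by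
    intro S1 h1 S2 h2 hm1 hm2
    have h3 := hG.ti.2 S1 h1 S2 h2
    by_contra hcon
    have h4 : #(S1 ∩ S2) = t := by omega
    have hmem : m - 1 ∈ S1 ∩ S2 := mem_inter.2 ⟨hm1, hm2⟩
    have hN : S1 ∈ NN m F := by
      refine mem_filter.2 ⟨h1, hm1, fun h5 => ?_⟩
      have h6 := hG.ti.2 _ h5 S2 h2
      rw [erase_inter, card_erase_of_mem hmem] at h6
      omega
    obtain ⟨h5, hN2⟩ := hpair S1 hN S2 h2 hm2 h4
    have h6 := hne S1 hN
    have h7 := hne S2 hN2
    have z1 := hB2' S1 hN h6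
    have z2 := hB2' S2 hN2 h7
    have p1 := (hpos S1 hN).1
    have p2 := (hpos S2 hN2).1
    rcases lt_trichotomy #S1 #S2 with h8 | h8 | h8
    · have := hv.H0 #S1 #S2 (#S2 - 1) p1 p2 (by omega) (by omega)
      rw [z2] at this
      exact lt_irrefl _ this
    · omega
    · have := hv.H0 #S2 #S1 (#S1 - 1) p2 p1 (by omega) (by omega)
      rw [z1] at this
      exact lt_irrefl _ this
  refine ⟨F.image (fun S => S.erase (m - 1)), ⟨?_, ?_⟩, ?_⟩
  · intro T hT
    obtain ⟨S, hS, rfl⟩ := mem_image.1 hT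
    intro x hx
    have h1 := mem_erase.1 hx
    have h2 := mem_range.1 (hG.ti.1 S hS h1.2)
    rw [mem_range]
    omega
  · intro T1 hT1 T2 hT2
    obtain ⟨S1, hS1, rfl⟩ := mem_image.1 hT1
    obtain ⟨S2, hS2, rfl⟩ := mem_image.1 hT2
    have h0 : S1.erase (m - 1) ∩ S2.erase (m - 1) = (S1 ∩ S2).erase (m - 1) := by
      ext x
      simp only [mem_inter, mem_erase]
      tauto
    rw [h0]
    by_cases h : m - 1 ∈ S1 ∩ S2
    · rw [card_erase_of_mem h]
      have := key S1 hS1 S2 hS2 (mem_inter.1 h).1 (mem_inter.1 h).2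
      omega
    · rw [erase_eq_of_notMem h]
      exact hG.ti.2 S1 hS1 S2 hS2
  · unfold wt
    rw [← sum_fiberwise_of_maps_to (s := F) (t := F.image (fun S => S.erase (m - 1)))
      (g := fun S => S.erase (m - 1)) (fun S hS => mem_image_of_mem _ hS)]
    refine sum_le_sum fun T hT => ?_
    have hτ : m - 1 ∉ T := by
      obtain ⟨S, -, rfl⟩ := mem_image.1 hT
      exact notMem_erase _ _
    have hsub : F.filter (fun S => S.erase (m - 1) = T) ⊆ {T, insert (m - 1) T} := by
      intro S hS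
      have h1 := (mem_filter.1 hS).2
      rw [mem_insert, mem_singleton]
      by_cases h2 : m - 1 ∈ S
      · right
        rw [← h1, insert_erase h2]
      · left
        rw [← h1, erase_eq_of_notMem h2]
    have hTn : T ≠ insert (m - 1) T := fun h => hτ (h ▸ mem_insert_self _ _)
    calc ∑ S ∈ F.filter (fun S => S.erase (m - 1) = T), v #S
        ≤ ∑ S ∈ ({T, insert (m - 1) T} : Finset (Finset ℕ)), v #S :=
          sum_le_sum_of_subset_of_nonneg hsub fun S _ _ => hv.nn _
      _ = v #T + v (#T + 1) := by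
          rw [sum_pair hTn, card_insert_of_notMem hτ]

end Pool.Agent.Helper59.MSP
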