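import Pool.Agent.Helper89.MS.Sheet

/-! # MS, packages LEV and B5 -/

set_option autoImplicit false

open Finset

namespace Pool.Agent.Helper59.MSP

open _root_.MS

theorem LEV : LEVStm := by
  intro L F hF
  have key : ∀ k : ℕ, ∀ S ∈ F, ∀ A, A ⊆ range L → #A = #(S ∩ range L) → #(A \ S) = k →
      A ∪ (S \ range L) ∈ F := by
    intro k
    induction k with
    | zero =>
      intro S hS A hA hc h0
      have h1 : A ⊆ S ∩ range L := by
        intro x hx
        have h2 : A \ S = ∅ := card_eq_zero.1 h0
        refine mem_inter.2 ⟨?_, hA hx⟩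
        by_contra h3
        have : x ∈ A \ S := mem_sdiff.2 ⟨hx, h3⟩
        rw [h2] at this
        exact absurd this (notMem_empty _)
      have h2 : A = S ∩ range L := eq_of_subset_of_card_le h1 hc.ge
      have h3 : A ∪ (S \ range L) = S := by
        rw [h2]
        ext x
        simp only [mem_union, mem_inter, mem_sdiff]
        tauto
      rwa [h3]
    | succ k ih =>
      intro S hS A hA hc h0
      obtain ⟨j, hj⟩ : (A \ S).Nonempty := card_pos.1 (by omega)
      have hjA := (mem_sdiff.1 hj).1
      have hjS := (mem_sdiff.1 hj).2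
      have hjL : j < L := mem_range.1 (hA hjA)
      have h1 : ((S ∩ range L) \ A).Nonempty := by
        by_contra h
        rw [not_nonempty_iff_eq_empty, sdiff_eq_empty_iff_subset] at h
        have h2 := eq_of_subset_of_card_le h hc.le
        have h3 : j ∈ S ∩ range L := by rw [h2]; exact hjA
        exact hjS (mem_inter.1 h3).1
      obtain ⟨i, hi⟩ := h1
      have hi1 := mem_sdiff.1 hi
      have hiS := (mem_inter.1 hi1.1).1
      have hiL : i < L := mem_range.1 (mem_inter.1 hi1.1).2
      have hiA := hi1.2
      have hij : i ≠ j := fun h => hjS (h ▸ hiS)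
      have hS' := hF S hS i j hiL hjL hiS hjS
      have e1 : insert j (S.erase i) \ range L = S \ range L := by
        ext x
        simp only [mem_sdiff, mem_insert, mem_erase, mem_range]
        constructor
        · rintro ⟨h | h, h2⟩
          · exact absurd (h ▸ hjL) h2
          · exact ⟨h.2, h2⟩
        · rintro ⟨h, h2⟩
          exact ⟨Or.inr ⟨fun h3 => h2 (h3 ▸ hiL), h⟩, h2⟩
      have e2 : #(insert j (S.erase i) ∩ range L) = #(S ∩ range L) := by
        have h2 : insert j (S.erase i) ∩ range L = insert j ((S ∩ range L).erase i) := by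
          ext x
          simp only [mem_inter, mem_insert, mem_erase, mem_range]
          constructor
          · rintro ⟨h | h, h2⟩
            · exact Or.inl h
            · exact Or.inr ⟨h.1, h.2, h2⟩
          · rintro (h | h)
            · exact ⟨Or.inl h, h ▸ hjL⟩
            · exact ⟨Or.inr ⟨h.1, h.2.1⟩, h.2.2⟩
        have h3 : j ∉ (S ∩ range L).erase i := fun h => hjS (mem_inter.1 (mem_erase.1 h).2).1
        rw [h2, card_insert_of_notMem h3, card_erase_of_mem hi1.1]
        have : 0 < #(S ∩ range L) := card_pos.2 ⟨i, hi1.1⟩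
        omega
      have e3 : #(A \ insert j (S.erase i)) = k := by
        have h2 : A \ insert j (S.erase i) = (A \ S).erase j := by
          ext x
          simp only [mem_sdiff, mem_insert, mem_erase]
          constructor
          · rintro ⟨h, h2⟩
            refine ⟨fun h3 => h2 (Or.inl h3), h, fun h3 => h2 (Or.inr ⟨fun h4 => ?_, h3⟩)⟩
            exact hiA (h4 ▸ h)
          · rintro ⟨h, h2, h3⟩
            refine ⟨h2, ?_⟩
            rintro (h4 | h4)
            · exact h h4
            · exact h3 h4.2
        rw [h2, card_erase_of_mem hj]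
        omega
      have h4 := ih _ hS' A hA (by rw [e2]; exact hc) e3
      rwa [e1] at h4
  intro S hS A hA hc
  exact key _ S hS A hA hc rfl

theorem B5 : B5Stm := by
  intro t m r v F ht hv hG hsym hm
  unfold wt
  apply sum_le_sum_of_subset_of_nonneg _ (fun S _ _ => hv _)
  intro S hS
  have hSm : S ⊆ range m := hG.ti.1 S hS
  refine mem_filter.2 ⟨mem_powerset.2 hSm, ?_⟩
  have hlev : ∀ T, T ⊆ range m → #T = #S → T ∈ F := by
    intro T hT hc
    have h1 := LEV m F hsym S hS T hT (by rw [inter_eq_left.2 hSm]; exact hc)
    rwa [sdiff_eq_empty_iff_subset.2 hSm, union_empty] at h1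
  have hcc : #(range m \ S) = m - #S := by
    rw [card_sdiff_of_subset hSm, card_range]
  have hSc : #S ≤ m := by
    have := card_le_card hSm
    rwa [card_range] at this
  by_cases h : #S ≤ m - #S
  · exfalso
    obtain ⟨T, hT, hTc⟩ := exists_subset_card_eq (s := range m \ S) (n := #S) (by omega)
    have h1 := hG.ti.2 S hS T (hlev T (hT.trans sdiff_subset) hTc)
    have h2 : S ∩ T = ∅ := by
      rw [← disjoint_iff_inter_eq_empty]
      exact disjoint_of_subset_right hT disjoint_sdiff
    rw [h2, card_empty] at h1
    omega
  · obtain ⟨S', hS', hSc'⟩ := exists_subset_card_eq (s := S) (n := #S - (m - #S)) (by omega)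
    have hd : Disjoint (range m \ S) S' := disjoint_of_subset_right hS' sdiff_disjoint
    have hc : #((range m \ S) ∪ S') = #S := by
      rw [card_union_of_disjoint hd, hcc, hSc']
      omega
    have h1 := hG.ti.2 S hS _ (hlev _ (union_subset sdiff_subset (hS'.trans hSm)) hc)
    have h2 : S ∩ ((range m \ S) ∪ S') = S' := by
      ext x
      simp only [mem_inter, mem_union, mem_sdiff]
      constructor
      · rintro ⟨h1, h2 | h2⟩
        · exact absurd h1 h2.2
        · exact h2
      · intro h1
        exact ⟨hS' h1, Or.inr h1⟩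
    rw [h2, hSc'] at h1
    omega

end Pool.Agent.Helper59.MSP
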